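import Pool.Agent.W463.LR.Prot

set_option autoImplicit false

/-! # Decompositions with limited cancellation give protocols -/

namespace Pool.Agent.W463.LR

open Finset Pool.Agent.W926.LR Pool.Agent.H630R2.LR

variable {X Y : Type}

/-- left factors of the positive part -/
def fa {s : ℕ} (u : Fin s → X → ℝ) : Option (Fin s × Bool) → X → ℝ
  | none, _ => 0
  | some (i, true), x => max (u i x) 0
  | some (i, false), x => max (-u i x) 0

/-- left factors of one plus the negative part -/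
def fa' {s : ℕ} (u : Fin s → X → ℝ) : Option (Fin s × Bool) → X → ℝ
  | none, _ => 1
  | some (i, true), x => max (u i x) 0
  | some (i, false), x => max (-u i x) 0

/-- right factors of one plus the negative part -/
def fb' {s : ℕ} (v : Fin s → Y → ℝ) : Option (Fin s × Bool) → Y → ℝ
  | none, _ => 1
  | some (i, true), y => max (-v i y) 0
  | some (i, false), y => max (v i y) 0

theorem fa_nonneg {s : ℕ} (u : Fin s → X → ℝ) : ∀ i x, 0 ≤ fa u i x
  | none, _ => le_rfl
  | some (_, true), _ => le_max_right _ _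
  | some (_, false), _ => le_max_right _ _

theorem fa'_nonneg {s : ℕ} (u : Fin s → X → ℝ) : ∀ i x, 0 ≤ fa' u i x
  | none, _ => zero_le_one
  | some (_, true), _ => le_max_right _ _
  | some (_, false), _ => le_max_right _ _

theorem fb'_nonneg {s : ℕ} (v : Fin s → Y → ℝ) : ∀ i y, 0 ≤ fb' v i y
  | none, _ => zero_le_one
  | some (_, true), _ => le_max_right _ _
  | some (_, false), _ => le_max_right _ _

theorem sum_fa {s : ℕ} (u : Fin s → X → ℝ) (v : Fin s → Y → ℝ) (x : X) (y : Y) :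
    ∑ i, fa u i x * fa v i y =
      ∑ i, (max (u i x) 0 * max (v i y) 0 + max (-u i x) 0 * max (-v i y) 0) := by
  rw [Fintype.sum_option, Fintype.sum_prod_type]
  simp only [Fintype.sum_bool, fa, mul_zero, zero_add]

theorem sum_fa' {s : ℕ} (u : Fin s → X → ℝ) (v : Fin s → Y → ℝ) (x : X) (y : Y) :
    ∑ i, fa' u i x * fb' v i y =
      1 + ∑ i, (max (u i x) 0 * max (-v i y) 0 + max (-u i x) 0 * max (v i y) 0) := by
  rw [Fintype.sum_option, Fintype.sum_prod_type]
  simp only [Fintype.sum_bool, fa', fb', mul_one]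

theorem split_mul (p q : ℝ) : (max p 0 * max q 0 + max (-p) 0 * max (-q) 0) -
    (max p 0 * max (-q) 0 + max (-p) 0 * max q 0) = p * q := by
  rcases le_total 0 p with hp | hp <;> rcases le_total 0 q with hq | hq
  · rw [max_eq_left hp, max_eq_left hq, max_eq_right (by linarith), max_eq_right (by linarith)]
    ring
  · rw [max_eq_left hp, max_eq_right hq, max_eq_right (by linarith : -p ≤ 0),
      max_eq_left (by linarith : 0 ≤ -q)]
    ring
  · rw [max_eq_right hp, max_eq_left hq, max_eq_left (by linarith : 0 ≤ -p),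
      max_eq_right (by linarith : -q ≤ 0)]
    ring
  · rw [max_eq_right hp, max_eq_right hq, max_eq_left (by linarith : 0 ≤ -p),
      max_eq_left (by linarith : 0 ≤ -q)]
    ring

theorem split_abs (p q : ℝ) : (max p 0 * max q 0 + max (-p) 0 * max (-q) 0) +
    (max p 0 * max (-q) 0 + max (-p) 0 * max q 0) = |p * q| := by
  rw [abs_mul]
  rcases le_total 0 p with hp | hp <;> rcases le_total 0 q with hq | hq
  · rw [max_eq_left hp, max_eq_left hq, max_eq_right (by linarith), max_eq_right (by linarith),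
      abs_of_nonneg hp, abs_of_nonneg hq]
    ring
  · rw [max_eq_left hp, max_eq_right hq, max_eq_right (by linarith : -p ≤ 0),
      max_eq_left (by linarith : 0 ≤ -q), abs_of_nonneg hp, abs_of_nonpos hq]
    ring
  · rw [max_eq_right hp, max_eq_left hq, max_eq_left (by linarith : 0 ≤ -p),
      max_eq_right (by linarith : -q ≤ 0), abs_of_nonpos hp, abs_of_nonneg hq]
    ring
  · rw [max_eq_right hp, max_eq_right hq, max_eq_left (by linarith : 0 ≤ -p),
      max_eq_left (by linarith : 0 ≤ -q), abs_of_nonpos hp, abs_of_nonpos hq]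
    ring

theorem pow_split (l w j : ℕ) (d : ℝ) (hd : d ≤ 2 ^ l) :
    (32 * d * (2 ^ w) ^ j) * 8 ≤ 2 ^ (8 + l + w * j) := by
  have e : (2 : ℝ) ^ (8 + l + w * j) = 2 ^ 8 * 2 ^ l * (2 ^ w) ^ j := by
    rw [pow_add, pow_add, pow_mul 2 w j]
  rw [e]
  have h0 : (0 : ℝ) ≤ (2 ^ w) ^ j := by positivity
  calc (32 * d * (2 ^ w) ^ j) * 8 = 2 ^ 8 * d * (2 ^ w) ^ j := by norm_num; ring
    _ ≤ 2 ^ 8 * 2 ^ l * (2 ^ w) ^ j :=
      mul_le_mul_of_nonneg_right (mul_le_mul_of_nonneg_left hd (by norm_num)) h0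

/-- Constant rectangles from two nonnegative decompositions whose ratio decides. -/
theorem rect_of_ratio [Fintype Y] (F : X → Y → Bool) {ι : Type} [Fintype ι] (a a' : ι → X → ℝ)
    (b b' : ι → Y → ℝ) (ha : ∀ i x, 0 ≤ a i x) (hb : ∀ i y, 0 ≤ b i y) (ha' : ∀ i x, 0 ≤ a' i x)
    (hb' : ∀ i y, 0 ≤ b' i y) (δ : ℝ) (hδ0 : 0 ≤ δ)
    (h1 : ∀ x y, F x y = true → 1 ≤ ∑ i, a i x * b i y ∧
      ∑ i, a' i x * b' i y ≤ ∑ i, a i x * b i y)
    (h0 : ∀ x y, F x y = false → (1 + δ) * ∑ i, a i x * b i y ≤ ∑ i, a' i x * b' i y)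
    (M : ℝ) (hM : 1 ≤ M) (hP : ∀ x y, ∑ i, a i x * b i y ≤ M)
    (hQ : ∀ x y, ∑ i, a' i x * b' i y ≤ M) (κ w D l : ℕ)
    (hκ : 1 ≤ κ * δ) (hw : (Fintype.card ι : ℝ) * M ≤ 2 ^ w) (hD1 : 1 ≤ D) (hD : D ≤ 2 ^ l) :
    Rect F D (8 + l + w * (κ * (11 + 2 * l))) := by
  classical
  intro R S hR hS hV
  have hD0 : (0 : ℝ) < D := by exact_mod_cast hD1
  set j := κ * (11 + 2 * l) with hj
  set ε : ℝ := 1 / (16 * D) with hε
  set ρ : ℝ := 1 / (32 * D * (2 ^ w) ^ j) with hρ
  obtain ⟨β, R', S', hR', hS', hsize, hbad⟩ := near (F := F) a a' b b' ha hb ha' hb' δ hδ0 h1 h0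
    M hM hP hQ
    ε (by positivity) (by
      rw [hε, div_lt_one (by positivity)]
      have : (1 : ℝ) ≤ D := by exact_mod_cast hD1
      linarith) j (by
      have e1 : (2 : ℝ) ≤ (1 + δ) ^ κ := by
        have := one_add_mul_le_pow (a := δ) (by linarith) κ
        linarith
      have e2 : (2 : ℝ) ^ (11 + 2 * l) ≤ (1 + δ) ^ j := by
        rw [hj, pow_mul]
        exact pow_le_pow_left₀ (by norm_num) e1 _
      have e3 : (D : ℝ) ^ 2 ≤ 2 ^ (2 * l) := by
        rw [mul_comm 2 l, pow_mul]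
        refine pow_le_pow_left₀ hD0.le ?_ 2
        exact_mod_cast hD
      have e4 : (2 : ℝ) ^ (11 + 2 * l) = 2048 * 2 ^ (2 * l) := by
        rw [pow_add]; norm_num
      have e5 : 2048 * (D : ℝ) ^ 2 ≤ (1 + δ) ^ j := by
        rw [e4] at e2
        linarith
      rw [hε, div_pow, one_pow, mul_one_div, lt_div_iff₀ (by positivity)]
      have : (0 : ℝ) < D ^ 2 := by positivity
      nlinarith)
    ρ (by positivity) (by
      rw [hρ, div_le_one (by positivity)]
      have e1 : (1 : ℝ) ≤ D := by exact_mod_cast hD1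
      have e2 : (1 : ℝ) ≤ (2 ^ w) ^ j := one_le_pow₀ (one_le_pow₀ (by norm_num))
      nlinarith)
    (by
      have e2 : ((Fintype.card ι : ℝ) * M) ^ j ≤ (2 ^ w) ^ j :=
        pow_le_pow_left₀ (by positivity) hw j
      calc ((Fintype.card ι : ℝ) * M) ^ j * ρ ≤ (2 ^ w) ^ j * ρ :=
            mul_le_mul_of_nonneg_right e2 (by positivity)
        _ = ε / 2 := by
          rw [hρ, hε]
          field_simp
          ring)
    R S hR hS
  have hRc : (0 : ℝ) < R.card := by exact_mod_cast hR.card_pos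
  have hSc : (0 : ℝ) < S.card := by exact_mod_cast hS.card_pos
  have hρ0 : 0 < ρ := by positivity
  have hpos : (0 : ℝ) < R'.card * S'.card := lt_of_lt_of_le (by positivity) hsize
  have hR'0 : R'.Nonempty := by
    rw [← Finset.card_pos]
    by_contra h
    have : R'.card = 0 := by omega
    rw [this] at hpos
    simp at hpos
  have hS'0 : S'.Nonempty := by
    rw [← Finset.card_pos]
    by_contra h
    have : S'.card = 0 := by omega
    rw [this] at hpos
    simp at hpos
  obtain ⟨b, R'', S'', hR'', hS'', hc1, hc2, hb⟩ := const_rect hD1 R' S'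
    (((dV_mono_left S' hR').trans (dV_mono_right R hS')).trans hV) β hbad hR'0 hS'0
  clear_value j
  refine ⟨b, R'', S'', hR''.trans hR', hS''.trans hS', ?_, ?_, hb⟩
  all_goals
    have hc1' : (R'.card : ℝ) ≤ 2 * R''.card := by exact_mod_cast hc1
    have hc2' : (S'.card : ℝ) ≤ 4 * S''.card := by exact_mod_cast hc2
    have f1 : (R''.card : ℝ) ≤ R.card := by
      exact_mod_cast Finset.card_le_card (hR''.trans hR')
    have f2 : (S''.card : ℝ) ≤ S.card := by
      exact_mod_cast Finset.card_le_card (hS''.trans hS')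
    have f3 : (R'.card : ℝ) * S'.card ≤ 8 * (R''.card * S''.card) := by
      calc (R'.card : ℝ) * S'.card ≤ (2 * R''.card) * (4 * S''.card) :=
            mul_le_mul hc1' hc2' (by positivity) (by positivity)
        _ = _ := by ring
    have f4 : (R.card : ℝ) * S.card ≤ 2 ^ (8 + l + w * j) * (R''.card * S''.card) := by
      have g1 : (R.card : ℝ) * S.card = (32 * D * (2 ^ w) ^ j) * (ρ * (R.card * S.card)) := by
        rw [hρ]
        field_simp
      have g2 : (32 * (D : ℝ) * (2 ^ w) ^ j) * 8 ≤ 2 ^ (8 + l + w * j) :=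
        pow_split l w j D (by exact_mod_cast hD)
      rw [g1]
      calc (32 * D * (2 ^ w) ^ j) * (ρ * (R.card * S.card))
          ≤ (32 * D * (2 ^ w) ^ j) * (8 * (R''.card * S''.card)) :=
            mul_le_mul_of_nonneg_left (hsize.trans f3) (by positivity)
        _ = ((32 * D * (2 ^ w) ^ j) * 8) * (R''.card * S''.card) := by ring
        _ ≤ _ := mul_le_mul_of_nonneg_right g2 (mul_nonneg (Nat.cast_nonneg _) (Nat.cast_nonneg _))
  · have f5 : (R.card : ℝ) * S.card ≤ (2 ^ (8 + l + w * j) * R''.card) * S.card := by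
      refine f4.trans ?_
      calc (2 : ℝ) ^ (8 + l + w * j) * (R''.card * S''.card) ≤
            2 ^ (8 + l + w * j) * (R''.card * S.card) := by gcongr
        _ = _ := by ring
    have f6 := le_of_mul_le_mul_right f5 hSc
    exact_mod_cast f6
  · have f5 : (S.card : ℝ) * R.card ≤ (2 ^ (8 + l + w * j) * S''.card) * R.card := by
      rw [mul_comm (S.card : ℝ)]
      refine f4.trans ?_
      calc (2 : ℝ) ^ (8 + l + w * j) * (R''.card * S''.card) ≤
            2 ^ (8 + l + w * j) * (R.card * S''.card) := by gcongr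
        _ = _ := by ring
    have f6 := le_of_mul_le_mul_right f5 hRc
    exact_mod_cast f6

/-- The protocol, in terms of natural numbers. -/
theorem ratio_nat [Fintype X] [Fintype Y] (F : X → Y → Bool) {ι : Type} [Fintype ι]
    (a a' : ι → X → ℝ)
    (b b' : ι → Y → ℝ) (ha : ∀ i x, 0 ≤ a i x) (hb : ∀ i y, 0 ≤ b i y) (ha' : ∀ i x, 0 ≤ a' i x)
    (hb' : ∀ i y, 0 ≤ b' i y) (δ : ℝ) (hδ0 : 0 ≤ δ)
    (h1 : ∀ x y, F x y = true → 1 ≤ ∑ i, a i x * b i y ∧
      ∑ i, a' i x * b' i y ≤ ∑ i, a i x * b i y)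
    (h0 : ∀ x y, F x y = false → (1 + δ) * ∑ i, a i x * b i y ≤ ∑ i, a' i x * b' i y)
    (M : ℝ) (hM : 1 ≤ M) (hP : ∀ x y, ∑ i, a i x * b i y ≤ M)
    (hQ : ∀ x y, ∑ i, a' i x * b' i y ≤ M) (κ w k : ℕ)
    (hκ : 1 ≤ κ * δ) (hw : (Fintype.card ι : ℝ) * M ≤ 2 ^ w)
    (hk : k = Nat.clog 2 ((cm ℝ F).rank + 1)) :
    Proto F (19 + 4 * k * (9 + 2 * k + w * (κ * (11 + 2 * k)))) := by
  have h := proto_rect F (8 + k + w * (κ * (11 + 2 * k)))
    (rect_of_ratio F a a' b b' ha hb ha' hb' δ hδ0 h1 h0 M hM hP hQ κ w ((cm ℝ F).rank + 1) k hκ hw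
      (by omega) (by rw [hk]; exact Nat.le_pow_clog (by norm_num) _))
  rw [← hk] at h
  have e : 4 * (1 + (8 + k + w * (κ * (11 + 2 * k)) + 1 + k) * k) + 15 =
      19 + 4 * k * (9 + 2 * k + w * (κ * (11 + 2 * k))) := by ring
  rw [e] at h
  exact h

/-- `clog` against `logb`. -/
theorem clog_rank (r k : ℕ) (hk : k = Nat.clog 2 (r + 1)) :
    (k : ℝ) ≤ 2 * (Real.logb 2 r + 1) := by
  rcases Nat.eq_zero_or_pos r with h | h
  · subst h
    have : k = 0 := by rw [hk]; simp
    rw [this]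
    simp
  · have hr : (1 : ℝ) ≤ r := by exact_mod_cast h
    have hL : 0 ≤ Real.logb 2 r := Real.logb_nonneg (by norm_num) hr
    have h1 : (k : ℝ) < Real.logb 2 (r + 1) + 1 := by
      have e1 : (2 : ℝ) ^ ((k : ℝ) - 1) < r + 1 := by
        have hk1 : 1 ≤ k := by
          rw [hk]
          exact Nat.clog_pos (by norm_num) (by omega)
        have e2 : 2 ^ (k - 1) < r + 1 := by
          rw [hk]
          exact Nat.pow_pred_clog_lt_self (by norm_num) (by omega)
        have e3 : ((k : ℝ) - 1) = ((k - 1 : ℕ) : ℝ) := by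
          rw [Nat.cast_sub hk1]; simp
        rw [e3, Real.rpow_natCast]
        exact_mod_cast e2
      have e2 := Real.logb_lt_logb (b := 2) (by norm_num) (by positivity) e1
      rw [Real.logb_rpow (by norm_num) (by norm_num)] at e2
      linarith
    have h2 : Real.logb 2 ((r : ℝ) + 1) ≤ Real.logb 2 r + 1 := by
      have : Real.logb 2 r + 1 = Real.logb 2 (r * 2) := by
        rw [Real.logb_mul (by positivity) (by norm_num), Real.logb_self_eq_one (by norm_num)]
      rw [this]
      exact Real.logb_le_logb_of_le (by norm_num) (by positivity) (by linarith)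
    linarith

theorem clog_real (z c : ℝ) (hz : 1 ≤ z) (w : ℕ) (hc : z ≤ 2 ^ c) (hw : w = ⌈Real.logb 2 z⌉₊) :
    z ≤ 2 ^ w ∧ (w : ℝ) ≤ c + 1 := by
  have hL : 0 ≤ Real.logb 2 z := Real.logb_nonneg (by norm_num) hz
  constructor
  · have h1 : Real.logb 2 z ≤ w := by rw [hw]; exact Nat.le_ceil _
    have h2 := (Real.logb_le_iff_le_rpow (by norm_num) (by linarith)).1 h1
    rwa [Real.rpow_natCast] at h2
  · have h1 : (w : ℝ) < Real.logb 2 z + 1 := by rw [hw]; exact Nat.ceil_lt_add_one hL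
    have h2 : Real.logb 2 z ≤ c := (Real.logb_le_iff_le_rpow (by norm_num) (by linarith)).2 hc
    linarith

end Pool.Agent.W463.LR
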