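import Pool.Agent.W463.LR.Main

set_option autoImplicit false

/-! # The log-rank conjecture and limited cancellation: the equivalence -/

namespace Pool.Agent.W463.LR

open Finset Pool.Agent.W926.LR Pool.Agent.H630R2.LR

theorem poly (C L : ℝ) (k : ℕ) (hC : 0 ≤ C) (hL : 0 ≤ L) :
    16000 * (((C + 1) * (L ^ k + 1)) ^ 2 * (L + 1) ^ 2) ≤
      512000 * (C + 1) ^ 2 * L ^ (2 * k + 2) + 512000 * (C + 1) ^ 2 := by
  have h1 : (L ^ k + 1) * (L + 1) ≤ 4 * (1 + L ^ (k + 1)) := by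
    rcases le_total L 1 with h | h
    · have e1 : L ^ k ≤ 1 := pow_le_one₀ hL h
      have e2 : 0 ≤ L ^ (k + 1) := by positivity
      have e3 : 0 ≤ L ^ k := by positivity
      nlinarith
    · have e1 : 1 ≤ L ^ k := one_le_pow₀ h
      have e2 : L ^ (k + 1) = L ^ k * L := pow_succ L k
      rw [e2]
      nlinarith
  have h0 : 0 ≤ (L ^ k + 1) * (L + 1) := by positivity
  have h2 : ((L ^ k + 1) * (L + 1)) ^ 2 ≤ (4 * (1 + L ^ (k + 1))) ^ 2 :=
    pow_le_pow_left₀ h0 h1 2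
  have h3 : (4 * (1 + L ^ (k + 1))) ^ 2 ≤ 32 * (1 + L ^ (2 * k + 2)) := by
    have e : L ^ (2 * k + 2) = (L ^ (k + 1)) ^ 2 := by rw [← pow_mul]; congr 1; ring
    rw [e]
    nlinarith [sq_nonneg (L ^ (k + 1) - 1)]
  have h4 : 16000 * (((C + 1) * (L ^ k + 1)) ^ 2 * (L + 1) ^ 2) =
      16000 * (C + 1) ^ 2 * ((L ^ k + 1) * (L + 1)) ^ 2 := by ring
  rw [h4]
  calc 16000 * (C + 1) ^ 2 * ((L ^ k + 1) * (L + 1)) ^ 2 ≤
        16000 * (C + 1) ^ 2 * (32 * (1 + L ^ (2 * k + 2))) :=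
        mul_le_mul_of_nonneg_left (h2.trans h3) (by positivity)
    _ = _ := by ring

theorem logb_le_two_mul (K : ℝ) (hK : 1 ≤ K) : Real.logb 2 K ≤ 2 * K := by
  have h1 : Real.log K ≤ K - 1 := Real.log_le_sub_one_of_pos (by linarith)
  have h2 : (1 : ℝ) / 2 ≤ Real.log 2 := by
    have := Real.log_two_gt_d9
    linarith
  rw [Real.logb, div_le_iff₀ (by linarith)]
  nlinarith

/-- Both decompositions give protocols of polylogarithmic cost. -/
theorem cost_approx (L K z C c : ℝ) (k : ℕ) (hC : 0 ≤ C) (hL : 0 ≤ L) (hK1 : 1 ≤ K)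
    (hz : 1 ≤ z) (hK : K ≤ C * L ^ k + C) (hlz : Real.logb 2 z ≤ C * L ^ k + C)
    (hc : c ≤ 4000 * K * (L + 1) ^ 2 * (Real.logb 2 (z * K) + 1)) :
    c ≤ 512000 * (C + 1) ^ 2 * L ^ (2 * k + 2) + 512000 * (C + 1) ^ 2 := by
  refine hc.trans (le_trans ?_ (poly C L k hC hL))
  have hLk : 0 ≤ L ^ k := by positivity
  set E := (C + 1) * (L ^ k + 1) with hE
  have e0 : C * L ^ k + C ≤ E := by rw [hE]; nlinarith
  have e1 : 1 ≤ E := by rw [hE]; nlinarith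
  have e2 : K ≤ E := hK.trans e0
  have e3 : Real.logb 2 (z * K) + 1 ≤ 4 * E := by
    rw [Real.logb_mul (by linarith) (by linarith)]
    have := logb_le_two_mul K hK1
    have e5 : Real.logb 2 z ≤ E := hlz.trans e0
    linarith
  have e4 : 0 ≤ Real.logb 2 (z * K) :=
    Real.logb_nonneg (by norm_num) (one_le_mul_of_one_le_of_one_le hz hK1)
  calc 4000 * K * (L + 1) ^ 2 * (Real.logb 2 (z * K) + 1) ≤
        4000 * E * (L + 1) ^ 2 * (4 * E) := by gcongr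
    _ = _ := by ring

theorem cost_ratio (L δ M z C c : ℝ) (k : ℕ) (hC : 0 ≤ C) (hL : 0 ≤ L) (hδ : 0 < δ)
    (hM : 1 ≤ M) (hz : 1 ≤ z) (h1 : 1 / δ ≤ C * L ^ k + C)
    (h2 : Real.logb 2 M ≤ C * L ^ k + C) (hlz : Real.logb 2 z ≤ C * L ^ k + C)
    (hc : c ≤ 500 / δ * (L + 1) ^ 2 * (Real.logb 2 (z * M) + 1)) :
    c ≤ 512000 * (C + 1) ^ 2 * L ^ (2 * k + 2) + 512000 * (C + 1) ^ 2 := by
  refine hc.trans (le_trans ?_ (poly C L k hC hL))
  have hLk : 0 ≤ L ^ k := by positivity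
  set E := (C + 1) * (L ^ k + 1) with hE
  have e0 : C * L ^ k + C ≤ E := by rw [hE]; nlinarith
  have e1 : 1 ≤ E := by rw [hE]; nlinarith
  have e2 : 1 / δ ≤ E := h1.trans e0
  have e3 : Real.logb 2 (z * M) + 1 ≤ 3 * E := by
    rw [Real.logb_mul (by linarith) (by linarith)]
    have e5 : Real.logb 2 z ≤ E := hlz.trans e0
    have e6 : Real.logb 2 M ≤ E := h2.trans e0
    linarith
  have e4 : 0 ≤ Real.logb 2 (z * M) :=
    Real.logb_nonneg (by norm_num) (one_le_mul_of_one_le_of_one_le hz hM)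
  have e7 : 500 / δ = 500 * (1 / δ) := by ring
  have e8 : 0 ≤ 1 / δ := by positivity
  rw [e7]
  calc 500 * (1 / δ) * (L + 1) ^ 2 * (Real.logb 2 (z * M) + 1) ≤
        500 * E * (L + 1) ^ 2 * (3 * E) := by gcongr
    _ = 1500 * (E ^ 2 * (L + 1) ^ 2) := by ring
    _ ≤ 16000 * (E ^ 2 * (L + 1) ^ 2) :=
      mul_le_mul_of_nonneg_right (by norm_num) (by positivity)

end Pool.Agent.W463.LR
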