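import Pool.Agent.W463.LR.Dec

set_option autoImplicit false

/-! # The upper bounds, and the converse -/

namespace Pool.Agent.W463.LR

open Finset Pool.Agent.W926.LR Pool.Agent.H630R2.LR

variable {X Y : Type}

theorem num (k κ w : ℕ) (T A B : ℝ) (hT : 1 ≤ T) (hA : 1 ≤ A) (hB : 1 ≤ B) (hk : (k : ℝ) ≤ 2 * T)
    (hκ : (κ : ℝ) ≤ A) (hw : (w : ℝ) ≤ B) :
    ((19 + 4 * k * (9 + 2 * k + w * (κ * (11 + 2 * k))) : ℕ) : ℝ) ≤ 243 * (A * B) * T ^ 2 := by
  push_cast
  have hk0 : (0 : ℝ) ≤ k := Nat.cast_nonneg _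
  have hκ0 : (0 : ℝ) ≤ κ := Nat.cast_nonneg _
  have hw0 : (0 : ℝ) ≤ w := Nat.cast_nonneg _
  have h1 : (9 : ℝ) + 2 * k ≤ 13 * T := by linarith
  have h2 : (11 : ℝ) + 2 * k ≤ 15 * T := by linarith
  have h3 : (w : ℝ) * (κ * (11 + 2 * k)) ≤ B * (A * (15 * T)) := by gcongr
  have h4 : (4 : ℝ) * k * (9 + 2 * k + w * (κ * (11 + 2 * k))) ≤
      4 * (2 * T) * (13 * T + B * (A * (15 * T))) := by gcongr
  have h5 : 4 * (2 * T) * (13 * T + B * (A * (15 * T))) = 104 * T ^ 2 + 120 * (A * B) * T ^ 2 := by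
    ring
  have h6 : 1 ≤ A * B := one_le_mul_of_one_le_of_one_le hA hB
  have h7 : 1 ≤ T ^ 2 := one_le_pow₀ hT
  have h8 : T ^ 2 ≤ A * B * T ^ 2 := le_mul_of_one_le_left (by positivity) h6
  nlinarith

theorem L_nonneg (r : ℕ) : 0 ≤ Real.logb 2 (r : ℝ) := by
  rcases Nat.eq_zero_or_pos r with h | h
  · subst h; simp
  · exact Real.logb_nonneg (by norm_num) (by exact_mod_cast h)

/-- Two nonnegative decompositions whose ratio decides. -/
theorem ratio_main [Fintype X] [Fintype Y] (F : X → Y → Bool) (s : ℕ) (hs : 1 ≤ s)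
    (a a' : Fin s → X → ℝ) (b b' : Fin s → Y → ℝ) (ha : ∀ i x, 0 ≤ a i x)
    (hb : ∀ i y, 0 ≤ b i y) (ha' : ∀ i x, 0 ≤ a' i x) (hb' : ∀ i y, 0 ≤ b' i y)
    (δ M : ℝ) (hδ0 : 0 < δ) (hδ1 : δ ≤ 1) (hM : 1 ≤ M)
    (h1 : ∀ x y, F x y = true → 1 ≤ ∑ i, a i x * b i y ∧
      ∑ i, a' i x * b' i y ≤ ∑ i, a i x * b i y)
    (h0 : ∀ x y, F x y = false → (1 + δ) * ∑ i, a i x * b i y ≤ ∑ i, a' i x * b' i y)
    (hP : ∀ x y, ∑ i, a i x * b i y ≤ M) (hQ : ∀ x y, ∑ i, a' i x * b' i y ≤ M) :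
    ∃ c : ℕ, Proto F c ∧
      (c : ℝ) ≤ 500 / δ * (Real.logb 2 ((cm ℝ F).rank : ℝ) + 1) ^ 2 *
        (Real.logb 2 (s * M) + 1) := by
  have hsM : 1 ≤ (s : ℝ) * M := by
    have : (1 : ℝ) ≤ s := by exact_mod_cast hs
    exact one_le_mul_of_one_le_of_one_le this hM
  have hLs : 0 ≤ Real.logb 2 (s * M) := Real.logb_nonneg (by norm_num) hsM
  have hLr := L_nonneg (cm ℝ F).rank
  obtain ⟨g1, g2⟩ := clog_real (s * M) (Real.logb 2 (s * M)) hsM ⌈Real.logb 2 (s * M)⌉₊
    (le_of_eq (Real.rpow_logb (by norm_num) (by norm_num) (by linarith)).symm) rfl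
  have hκ : (1 : ℝ) ≤ ⌈1 / δ⌉₊ * δ := by
    have := Nat.le_ceil (1 / δ)
    calc (1 : ℝ) = 1 / δ * δ := by field_simp
      _ ≤ ⌈1 / δ⌉₊ * δ := mul_le_mul_of_nonneg_right this hδ0.le
  have hκ2 : (⌈1 / δ⌉₊ : ℝ) ≤ 2 / δ := by
    have e1 : (⌈1 / δ⌉₊ : ℝ) < 1 / δ + 1 := Nat.ceil_lt_add_one (by positivity)
    have e2 : 1 ≤ 1 / δ := by rw [le_div_iff₀ hδ0]; linarith
    have e3 : 2 / δ = 1 / δ + 1 / δ := by ring
    linarith
  refine ⟨_, ratio_nat F a a' b b' ha hb ha' hb' δ hδ0.le h1 h0 M hM hP hQ ⌈1 / δ⌉₊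
    ⌈Real.logb 2 (s * M)⌉₊ _ hκ (by rw [Fintype.card_fin]; exact g1) rfl, ?_⟩
  refine (num _ _ _ (Real.logb 2 ((cm ℝ F).rank : ℝ) + 1) (2 / δ) (Real.logb 2 (s * M) + 1)
    (by linarith) ?_ (by linarith) (clog_rank _ _ rfl) hκ2 g2).trans ?_
  · rw [le_div_iff₀ hδ0]; linarith
  · have e1 : 243 * (2 / δ * (Real.logb 2 (s * M) + 1)) *
        (Real.logb 2 ((cm ℝ F).rank : ℝ) + 1) ^ 2 =
        486 * (1 / δ * (Real.logb 2 ((cm ℝ F).rank : ℝ) + 1) ^ 2 *
          (Real.logb 2 (s * M) + 1)) := by ring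
    have e2 : 500 / δ * (Real.logb 2 ((cm ℝ F).rank : ℝ) + 1) ^ 2 * (Real.logb 2 (s * M) + 1) =
        500 * (1 / δ * (Real.logb 2 ((cm ℝ F).rank : ℝ) + 1) ^ 2 *
          (Real.logb 2 (s * M) + 1)) := by ring
    rw [e1, e2]
    exact mul_le_mul_of_nonneg_right (by norm_num) (by positivity)

/-- Approximate decompositions with limited cancellation. -/
theorem approx_main [Fintype X] [Fintype Y] (F : X → Y → Bool) (s : ℕ) (hs : 1 ≤ s)
    (u : Fin s → X → ℝ) (v : Fin s → Y → ℝ)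
    (hdec : ∀ x y, |∑ i, u i x * v i y - (if F x y then 1 else 0)| ≤ 1 / 3)
    (K : ℝ) (hK1 : 1 ≤ K) (hK : ∀ x y, ∑ i, |u i x * v i y| ≤ K) :
    ∃ c : ℕ, Proto F c ∧
      (c : ℝ) ≤ 4000 * K * (Real.logb 2 ((cm ℝ F).rank : ℝ) + 1) ^ 2 *
        (Real.logb 2 (s * K) + 1) := by
  classical
  have hs' : (1 : ℝ) ≤ s := by exact_mod_cast hs
  have hsK : 1 ≤ (s : ℝ) * K := one_le_mul_of_one_le_of_one_le hs' hK1
  have hLs : 0 ≤ Real.logb 2 (s * K) := Real.logb_nonneg (by norm_num) hsK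
  have hLr := L_nonneg (cm ℝ F).rank
  -- the two sides
  set P₀ : X → Y → ℝ := fun x y => ∑ i, fa u i x * fa v i y with hP₀
  set N₀ : X → Y → ℝ := fun x y => ∑ i, fa' u i x * fb' v i y - 1 with hN₀
  have hN00 : ∀ x y, 0 ≤ N₀ x y := by
    intro x y
    rw [hN₀]
    simp only
    rw [sum_fa', add_sub_cancel_left]
    exact Finset.sum_nonneg fun i _ => by positivity
  have hP00 : ∀ x y, 0 ≤ P₀ x y := by
    intro x y
    rw [hP₀]
    simp only
    rw [sum_fa]
    exact Finset.sum_nonneg fun i _ => by positivity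
  have hPN : ∀ x y, P₀ x y - N₀ x y = ∑ i, u i x * v i y := by
    intro x y
    rw [hP₀, hN₀]
    simp only
    rw [sum_fa, sum_fa', add_sub_cancel_left, ← Finset.sum_sub_distrib]
    exact Finset.sum_congr rfl fun i _ => split_mul _ _
  have hPN' : ∀ x y, P₀ x y + N₀ x y ≤ K := by
    intro x y
    refine le_trans (le_of_eq ?_) (hK x y)
    rw [hP₀, hN₀]
    simp only
    rw [sum_fa, sum_fa', add_sub_cancel_left, ← Finset.sum_add_distrib]
    exact Finset.sum_congr rfl fun i _ => split_abs _ _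
  -- rescaled factors
  set A : Option (Fin s × Bool) → X → ℝ := fun i x => 3 / 2 * fa u i x with hA
  set A' : Option (Fin s × Bool) → X → ℝ := fun i x => match i with
    | none => 1
    | some j => 3 / 2 * fa' u (some j) x with hA'
  have hAP : ∀ x y, ∑ i, A i x * fa v i y = 3 / 2 * P₀ x y := by
    intro x y
    rw [hP₀]
    simp only
    rw [Finset.mul_sum]
    exact Finset.sum_congr rfl fun i _ => by rw [hA]; ring
  have hAN : ∀ x y, ∑ i, A' i x * fb' v i y = 3 / 2 * N₀ x y + 1 := by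
    intro x y
    rw [hN₀]
    simp only
    rw [Fintype.sum_option, Fintype.sum_option]
    have e1 : ∑ j : Fin s × Bool, A' (some j) x * fb' v (some j) y =
        3 / 2 * ∑ j : Fin s × Bool, fa' u (some j) x * fb' v (some j) y := by
      rw [Finset.mul_sum]
      exact Finset.sum_congr rfl fun i _ => by rw [hA']; ring
    rw [e1]
    simp only [hA', fa', fb']
    ring
  have hA0 : ∀ i x, 0 ≤ A i x := fun i x => mul_nonneg (by norm_num) (fa_nonneg u i x)
  have hA'0 : ∀ i x, 0 ≤ A' i x := by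
    intro i x
    rcases i with _ | j
    · simp [hA']
    · exact mul_nonneg (by norm_num) (fa'_nonneg u (some j) x)
  have hcard : (Fintype.card (Option (Fin s × Bool)) : ℝ) = 2 * s + 1 := by
    simp [Fintype.card_option, Fintype.card_prod, mul_comm]
  have hz1 : (1 : ℝ) ≤ (2 * s + 1) * (5 / 2 * K) := by nlinarith
  obtain ⟨g1, g2⟩ := clog_real ((2 * s + 1) * (5 / 2 * K)) (Real.logb 2 (s * K) + 3) hz1
    ⌈Real.logb 2 ((2 * s + 1) * (5 / 2 * K))⌉₊ (by
      rw [Real.rpow_add (by norm_num), Real.rpow_logb (by norm_num) (by norm_num) (by linarith)]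
      have : (2 : ℝ) ^ (3 : ℝ) = 8 := by norm_num
      rw [this]
      nlinarith) rfl
  have hκ : (1 : ℝ) ≤ ⌈3 * K⌉₊ * (1 / (3 * K)) := by
    have := Nat.le_ceil (3 * K)
    rw [mul_one_div, le_div_iff₀ (by positivity)]
    linarith
  have hκ2 : (⌈3 * K⌉₊ : ℝ) ≤ 4 * K := by
    have e1 : (⌈3 * K⌉₊ : ℝ) < 3 * K + 1 := Nat.ceil_lt_add_one (by positivity)
    linarith
  have hN := ratio_nat F A A' (fa v) (fb' v) hA0 (fa_nonneg v) hA'0 (fb'_nonneg v)
    (1 / (3 * K)) (by positivity)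
    (fun x y hF => by
      rw [hAP, hAN]
      have e1 := hdec x y
      rw [← hPN x y, if_pos hF, abs_le] at e1
      have e2 := hN00 x y
      constructor <;> linarith [e1.1])
    (fun x y hF => by
      rw [hAP, hAN]
      have e1 := hdec x y
      rw [← hPN x y, hF] at e1
      simp only [Bool.false_eq_true, if_false, sub_zero] at e1
      rw [abs_le] at e1
      have e2 := hN00 x y
      have e3 := hPN' x y
      have e4 : 1 / (3 * K) * (3 / 2 * P₀ x y) ≤ 1 / 2 := by
        rw [one_div, inv_mul_le_iff₀ (by positivity)]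
        linarith
      have e5 : (1 + 1 / (3 * K)) * (3 / 2 * P₀ x y) =
          3 / 2 * P₀ x y + 1 / (3 * K) * (3 / 2 * P₀ x y) := by ring
      rw [e5]
      linarith [e1.2])
    (5 / 2 * K) (by linarith)
    (fun x y => by
      rw [hAP]
      have e2 := hN00 x y
      have e3 := hPN' x y
      linarith)
    (fun x y => by
      rw [hAN]
      have e2 := hP00 x y
      have e3 := hPN' x y
      linarith)
    ⌈3 * K⌉₊ ⌈Real.logb 2 ((2 * s + 1) * (5 / 2 * K))⌉₊ _ hκ (by rw [hcard]; exact g1) rfl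
  refine ⟨_, hN, ?_⟩
  refine (num _ _ _ (Real.logb 2 ((cm ℝ F).rank : ℝ) + 1) (4 * K) (4 * (Real.logb 2 (s * K) + 1))
    (by linarith) (by linarith) (by linarith) (clog_rank _ _ rfl) hκ2 (by linarith)).trans ?_
  have e1 : 243 * (4 * K * (4 * (Real.logb 2 (s * K) + 1))) *
      (Real.logb 2 ((cm ℝ F).rank : ℝ) + 1) ^ 2 =
      3888 * (K * (Real.logb 2 ((cm ℝ F).rank : ℝ) + 1) ^ 2 * (Real.logb 2 (s * K) + 1)) := by ring
  have e2 : 4000 * K * (Real.logb 2 ((cm ℝ F).rank : ℝ) + 1) ^ 2 * (Real.logb 2 (s * K) + 1) =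
      4000 * (K * (Real.logb 2 ((cm ℝ F).rank : ℝ) + 1) ^ 2 * (Real.logb 2 (s * K) + 1)) := by ring
  rw [e1, e2]
  exact mul_le_mul_of_nonneg_right (by norm_num) (by positivity)

/-! ### The converse -/

/-- the transcript -/
def tr (owner : List Bool → Bool) (a : List Bool → X → Bool) (b : List Bool → Y → Bool) (x : X)
    (y : Y) (c : ℕ) : List Bool :=
  Nat.iterate (fun t : List Bool => t ++ [if owner t then a t x else b t y]) c []

theorem tr_succ (owner : List Bool → Bool) (a : List Bool → X → Bool) (b : List Bool → Y → Bool)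
    (x : X) (y : Y) (c : ℕ) : tr owner a b x y (c + 1) =
      tr owner a b x y c ++ [if owner (tr owner a b x y c) then a (tr owner a b x y c) x
        else b (tr owner a b x y c) y] := by
  unfold tr
  rw [Function.iterate_succ_apply']

theorem tr_length (owner : List Bool → Bool) (a : List Bool → X → Bool) (b : List Bool → Y → Bool)
    (x : X) (y : Y) (c : ℕ) : (tr owner a b x y c).length = c := by
  induction c with
  | zero => rfl
  | succ c ih => rw [tr_succ, List.length_append, ih]; rfl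

theorem tr_rect (owner : List Bool → Bool) (a : List Bool → X → Bool) (b : List Bool → Y → Bool)
    (x x' : X) (y y' : Y) (c : ℕ) : tr owner a b x y' c = tr owner a b x' y c →
      tr owner a b x y c = tr owner a b x y' c := by
  induction c with
  | zero => intro _; rfl
  | succ c ih =>
    intro h
    rw [tr_succ, tr_succ] at h
    obtain ⟨h1, h2⟩ := List.append_inj' h rfl
    have h3 := ih h1
    rw [tr_succ, tr_succ, h3]
    congr 1
    rw [← h1] at h2
    simp only [List.cons.injEq, and_true] at h2 ⊢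
    cases ho : owner (tr owner a b x y' c)
    · rw [ho] at h2
      simp only [Bool.false_eq_true, if_false] at h2 ⊢
      exact h2.symm
    · rfl

theorem converse (F : X → Y → Bool) (c : ℕ) (h : Proto F c) :
    ∃ (u : Fin (2 ^ c) → X → ℝ) (v : Fin (2 ^ c) → Y → ℝ),
      (∀ i x, u i x = 0 ∨ u i x = 1) ∧ (∀ i y, v i y = 0 ∨ v i y = 1) ∧
      ∀ x y, ∑ i, u i x * v i y = if F x y then 1 else 0 := by
  classical
  obtain ⟨owner, a, b, out, hF⟩ := h
  have hcard : Fintype.card (List.Vector Bool c) = 2 ^ c := by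
    rw [card_vector, Fintype.card_bool]
  set e : Fin (2 ^ c) ≃ List.Vector Bool c := (Fintype.equivFinOfCardEq hcard).symm with he
  refine ⟨fun i x => if out (e i).toList = true ∧ ∃ y', tr owner a b x y' c = (e i).toList then 1
    else 0, fun i y => if ∃ x', tr owner a b x' y c = (e i).toList then 1 else 0, ?_, ?_, ?_⟩
  · intro i x
    simp only
    split_ifs <;> simp
  · intro i y
    simp only
    split_ifs <;> simp
  · intro x y
    obtain ⟨τ, hτ⟩ : ∃ τ : List.Vector Bool c, τ.toList = tr owner a b x y c :=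
      ⟨⟨tr owner a b x y c, tr_length owner a b x y c⟩, rfl⟩
    have h1 : ∀ i : Fin (2 ^ c), ((if out (e i).toList = true ∧ ∃ y', tr owner a b x y' c =
        (e i).toList then (1 : ℝ) else 0) * (if ∃ x', tr owner a b x' y c = (e i).toList then 1
          else 0)) = if i = e.symm τ then (if F x y then 1 else 0) else 0 := by
      intro i
      have hFi : (i = e.symm τ) ↔ tr owner a b x y c = (e i).toList := by
        rw [Equiv.eq_symm_apply]
        constructor
        · intro h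
          rw [h, hτ]
        · intro h
          apply List.Vector.toList_injective
          rw [← h, hτ]
      by_cases hi : tr owner a b x y c = (e i).toList
      · have h5 : ∃ x', tr owner a b x' y c = (e i).toList := ⟨x, hi⟩
        rw [if_pos (hFi.2 hi), if_pos h5, mul_one]
        have hout : out (e i).toList = F x y := by
          rw [← hi]
          exact hF x y
        rw [hout]
        by_cases hFxy : F x y = true
        · rw [if_pos ⟨hFxy, ⟨y, hi⟩⟩, if_pos hFxy]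
        · rw [if_neg (fun h => hFxy h.1), if_neg hFxy]
      · rw [if_neg (fun h => hi (hFi.1 h))]
        by_cases h2 : ∃ x', tr owner a b x' y c = (e i).toList
        · by_cases h3 : ∃ y', tr owner a b x y' c = (e i).toList
          · exfalso
            obtain ⟨x', hx'⟩ := h2
            obtain ⟨y', hy'⟩ := h3
            exact hi ((tr_rect owner a b x x' y y' c (hy'.trans hx'.symm)).trans hy')
          · rw [if_neg (fun h => h3 h.2), zero_mul]
        · rw [if_neg h2, mul_zero]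
    rw [Finset.sum_congr rfl fun i _ => h1 i]
    rw [Finset.sum_ite_eq' Finset.univ, if_pos (Finset.mem_univ _)]

end Pool.Agent.W463.LR
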