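import Mathlib

set_option autoImplicit false

/-! # Near-constant rectangles from a decomposition with limited cancellation -/

namespace Pool.Agent.W463.LR

open Finset

variable {X Y : Type}

/-- A bilinear form on a product of cubes is largest at a vertex. -/
theorem vertex (R : Finset X) (S : Finset Y) (φ : X → Y → ℝ) (f : X → ℝ) (g : Y → ℝ)
    (hf : ∀ x, 0 ≤ f x) (hg : ∀ y, 0 ≤ g y) (B m : ℝ) (hB0 : 0 ≤ B)
    (hB : ∀ x ∈ R, ∀ y ∈ S, f x * g y ≤ B)
    (hm : ∀ R' ⊆ R, ∀ S' ⊆ S, ∑ x ∈ R', ∑ y ∈ S', φ x y ≤ m) :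
    ∑ x ∈ R, ∑ y ∈ S, f x * g y * φ x y ≤ B * m := by
  classical
  have hm0 : 0 ≤ m := by simpa using hm ∅ (Finset.empty_subset _) ∅ (Finset.empty_subset _)
  rcases R.eq_empty_or_nonempty with hR | hR
  · rw [hR, Finset.sum_empty]; positivity
  rcases S.eq_empty_or_nonempty with hS | hS
  · rw [hS]; simp only [Finset.sum_empty, Finset.sum_const_zero]; positivity
  obtain ⟨x0, hx0, hmax⟩ := Finset.exists_max_image R f hR
  obtain ⟨y0, hy0, hmay⟩ := Finset.exists_max_image S g hS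
  set h : X → ℝ := fun x => ∑ y ∈ S, g y * φ x y with hh
  set R' := R.filter fun x => 0 < h x with hR'
  set k : Y → ℝ := fun y => ∑ x ∈ R', φ x y with hk
  set S' := S.filter fun y => 0 < k y with hS'
  have h1 : ∑ x ∈ R, ∑ y ∈ S, f x * g y * φ x y = ∑ x ∈ R, f x * h x := by
    refine Finset.sum_congr rfl fun x _ => ?_
    rw [hh, Finset.mul_sum]
    exact Finset.sum_congr rfl fun y _ => by ring
  have h2 : ∑ x ∈ R, f x * h x ≤ f x0 * ∑ x ∈ R', h x := by
    rw [Finset.mul_sum, hR', Finset.sum_filter]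
    refine Finset.sum_le_sum fun x hx => ?_
    split_ifs with h3
    · exact mul_le_mul_of_nonneg_right (hmax x hx) h3.le
    · exact mul_nonpos_of_nonneg_of_nonpos (hf x) (not_lt.1 h3)
  have h3 : ∑ x ∈ R', h x = ∑ y ∈ S, g y * k y := by
    rw [hh]
    simp only
    rw [Finset.sum_comm]
    refine Finset.sum_congr rfl fun y _ => ?_
    rw [hk, Finset.mul_sum]
  have h4 : ∑ y ∈ S, g y * k y ≤ g y0 * ∑ y ∈ S', k y := by
    rw [Finset.mul_sum, hS', Finset.sum_filter]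
    refine Finset.sum_le_sum fun y hy => ?_
    split_ifs with h3
    · exact mul_le_mul_of_nonneg_right (hmay y hy) h3.le
    · exact mul_nonpos_of_nonneg_of_nonpos (hg y) (not_lt.1 h3)
  have h5 : ∑ y ∈ S', k y ≤ m := by
    rw [hk]
    simp only
    rw [Finset.sum_comm]
    exact hm R' (Finset.filter_subset _ _) S' (Finset.filter_subset _ _)
  rw [h1]
  calc ∑ x ∈ R, f x * h x ≤ f x0 * ∑ x ∈ R', h x := h2
    _ = f x0 * ∑ y ∈ S, g y * k y := by rw [h3]
    _ ≤ f x0 * (g y0 * ∑ y ∈ S', k y) := mul_le_mul_of_nonneg_left h4 (hf x0)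
    _ ≤ f x0 * (g y0 * m) :=
      mul_le_mul_of_nonneg_left (mul_le_mul_of_nonneg_left h5 (hg y0)) (hf x0)
    _ = (f x0 * g y0) * m := by ring
    _ ≤ B * m := mul_le_mul_of_nonneg_right (hB x0 hx0 y0 hy0) hm0

theorem power {ι : Type} [Fintype ι] (a : ι → X → ℝ) (b : ι → Y → ℝ) (ha : ∀ i x, 0 ≤ a i x)
    (hb : ∀ i y, 0 ≤ b i y) (M : ℝ) (hM0 : 0 ≤ M) (R : Finset X) (S : Finset Y)
    (hM : ∀ i, ∀ x ∈ R, ∀ y ∈ S, a i x * b i y ≤ M) (φ : X → Y → ℝ) (m : ℝ)
    (hm : ∀ R' ⊆ R, ∀ S' ⊆ S, ∑ x ∈ R', ∑ y ∈ S', φ x y ≤ m) (j : ℕ) :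
    ∀ (f : X → ℝ) (g : Y → ℝ) (B : ℝ), (∀ x, 0 ≤ f x) → (∀ y, 0 ≤ g y) → 0 ≤ B →
      (∀ x ∈ R, ∀ y ∈ S, f x * g y ≤ B) →
      ∑ x ∈ R, ∑ y ∈ S, f x * g y * ((∑ i, a i x * b i y) ^ j * φ x y) ≤
        B * (Fintype.card ι * M) ^ j * m := by
  induction j with
  | zero =>
    intro f g B hf hg hB0 hB
    simpa using vertex R S φ f g hf hg B m hB0 hB hm
  | succ j ih =>
    intro f g B hf hg hB0 hB
    have h1 : ∑ x ∈ R, ∑ y ∈ S, f x * g y * ((∑ i, a i x * b i y) ^ (j + 1) * φ x y) =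
        ∑ i, ∑ x ∈ R, ∑ y ∈ S, (f x * a i x) * (g y * b i y) *
          ((∑ i, a i x * b i y) ^ j * φ x y) := by
      symm
      rw [Finset.sum_comm]
      refine Finset.sum_congr rfl fun x _ => ?_
      rw [Finset.sum_comm]
      refine Finset.sum_congr rfl fun y _ => ?_
      have e : f x * g y * ((∑ i, a i x * b i y) ^ (j + 1) * φ x y) =
          (∑ i, a i x * b i y) * (f x * g y * ((∑ i, a i x * b i y) ^ j * φ x y)) := by ring
      rw [e, Finset.sum_mul]
      exact Finset.sum_congr rfl fun i _ => by ring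
    rw [h1]
    have h2 : ∀ i : ι, ∑ x ∈ R, ∑ y ∈ S, (f x * a i x) * (g y * b i y) *
          ((∑ i, a i x * b i y) ^ j * φ x y) ≤ B * M * (Fintype.card ι * M) ^ j * m := by
      intro i
      refine ih _ _ (B * M) (fun x => mul_nonneg (hf x) (ha i x))
        (fun y => mul_nonneg (hg y) (hb i y)) (by positivity) fun x hx y hy => ?_
      calc f x * a i x * (g y * b i y) = (f x * g y) * (a i x * b i y) := by ring
        _ ≤ B * M := mul_le_mul (hB x hx y hy) (hM i x hx y hy)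
          (mul_nonneg (ha i x) (hb i y)) hB0
    refine (Finset.sum_le_sum fun i _ => h2 i).trans (le_of_eq ?_)
    rw [Finset.sum_const, Finset.card_univ, nsmul_eq_mul]
    ring

/-- the number of entries different from `β` -/
def bad (F : X → Y → Bool) (β : Bool) (R : Finset X) (S : Finset Y) : ℝ :=
  ∑ x ∈ R, ∑ y ∈ S, if F x y = β then 0 else 1

theorem near {F : X → Y → Bool} {ι : Type} [Fintype ι] (a a' : ι → X → ℝ) (b b' : ι → Y → ℝ)
    (ha : ∀ i x, 0 ≤ a i x) (hb : ∀ i y, 0 ≤ b i y) (ha' : ∀ i x, 0 ≤ a' i x)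
    (hb' : ∀ i y, 0 ≤ b' i y) (δ : ℝ) (hδ0 : 0 ≤ δ)
    (h1 : ∀ x y, F x y = true → 1 ≤ ∑ i, a i x * b i y ∧
      ∑ i, a' i x * b' i y ≤ ∑ i, a i x * b i y)
    (h0 : ∀ x y, F x y = false → (1 + δ) * ∑ i, a i x * b i y ≤ ∑ i, a' i x * b' i y)
    (M : ℝ) (hM : 1 ≤ M) (hP : ∀ x y, ∑ i, a i x * b i y ≤ M)
    (hQ : ∀ x y, ∑ i, a' i x * b' i y ≤ M)
    (ε : ℝ) (hε0 : 0 < ε) (hε1 : ε < 1) (j : ℕ) (hj : 4 < (1 + δ) ^ j * ε ^ 2)
    (ρ : ℝ) (hρ0 : 0 < ρ) (hρ1 : ρ ≤ 1)
    (hρ : ((Fintype.card ι : ℝ) * M) ^ j * ρ ≤ ε / 2)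
    (R : Finset X) (S : Finset Y) (hR : R.Nonempty) (hS : S.Nonempty) :
    ∃ (β : Bool) (R' : Finset X) (S' : Finset Y), R' ⊆ R ∧ S' ⊆ S ∧
      ρ * (R.card * S.card) ≤ R'.card * S'.card ∧ bad F β R' S' ≤ ε * (R'.card * S'.card) := by
  classical
  by_contra hcon
  push Not at hcon
  set n : ℝ := (R.card : ℝ) * S.card with hn
  have hn0 : 0 < n := by
    have e1 : (0 : ℝ) < R.card := by exact_mod_cast hR.card_pos
    have e2 : (0 : ℝ) < S.card := by exact_mod_cast hS.card_pos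
    positivity
  set P : X → Y → ℝ := fun x y => ∑ i, a i x * b i y with hPdef
  set Q : X → Y → ℝ := fun x y => ∑ i, a' i x * b' i y with hQdef
  have hP0 : ∀ x y, 0 ≤ P x y := fun x y => Finset.sum_nonneg fun i _ => mul_nonneg (ha i x) (hb i y)
  have hQ0 : ∀ x y, 0 ≤ Q x y := fun x y =>
    Finset.sum_nonneg fun i _ => mul_nonneg (ha' i x) (hb' i y)
  -- the functions `φ`
  have hm : ∀ β : Bool, ∀ R' ⊆ R, ∀ S' ⊆ S,
      ∑ x ∈ R', ∑ y ∈ S', (ε - if F x y = β then 0 else 1) ≤ ε * (ρ * n) := by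
    intro β R' hR' S' hS'
    have e1 : ∑ x ∈ R', ∑ y ∈ S', (ε - if F x y = β then 0 else 1) =
        ε * (R'.card * S'.card) - bad F β R' S' := by
      simp only [Finset.sum_sub_distrib, Finset.sum_const, nsmul_eq_mul, bad]
      ring
    rw [e1]
    have hb0 : 0 ≤ bad F β R' S' := by
      refine Finset.sum_nonneg fun x _ => Finset.sum_nonneg fun y _ => ?_
      split_ifs <;> norm_num
    have hρn : 0 ≤ ε * (ρ * n) := by positivity
    rcases le_or_gt (ρ * n) (R'.card * S'.card) with h | h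
    · have := hcon β R' S' hR' hS' h
      linarith
    · have : ε * ((R'.card : ℝ) * S'.card) ≤ ε * (ρ * n) :=
        mul_le_mul_of_nonneg_left h.le hε0.le
      linarith
  have hone : ∀ x : X, (0 : ℝ) ≤ (fun _ : X => (1 : ℝ)) x := fun _ => zero_le_one
  have hone' : ∀ y : Y, (0 : ℝ) ≤ (fun _ : Y => (1 : ℝ)) y := fun _ => zero_le_one
  have k1 := power a' b' ha' hb' M (by linarith) R S (fun i x _ y _ =>
    (Finset.single_le_sum (f := fun i => a' i x * b' i y)
      (fun i _ => mul_nonneg (ha' i x) (hb' i y)) (Finset.mem_univ i)).trans (hQ x y))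
    (fun x y => ε - if F x y = false then 0 else 1) (ε * (ρ * n)) (hm false) j
    (fun _ => 1) (fun _ => 1) 1 hone hone' zero_le_one (fun _ _ _ _ => by norm_num)
  have k2 := power a b ha hb M (by linarith) R S (fun i x _ y _ =>
    (Finset.single_le_sum (f := fun i => a i x * b i y)
      (fun i _ => mul_nonneg (ha i x) (hb i y)) (Finset.mem_univ i)).trans (hP x y))
    (fun x y => ε - if F x y = true then 0 else 1) (ε * (ρ * n)) (hm true) j
    (fun _ => 1) (fun _ => 1) 1 hone hone' zero_le_one (fun _ _ _ _ => by norm_num)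
  have hδ : 1 * ((Fintype.card ι : ℝ) * M) ^ j * (ε * (ρ * n)) ≤ ε ^ 2 * n / 2 := by
    have : 1 * ((Fintype.card ι : ℝ) * M) ^ j * (ε * (ρ * n)) =
        (((Fintype.card ι : ℝ) * M) ^ j * ρ) * (ε * n) := by ring
    rw [this]
    calc (((Fintype.card ι : ℝ) * M) ^ j * ρ) * (ε * n) ≤ (ε / 2) * (ε * n) :=
          mul_le_mul_of_nonneg_right hρ (by positivity)
      _ = ε ^ 2 * n / 2 := by ring
  set A : ℝ := ∑ x ∈ R, ∑ y ∈ S, if F x y = true then P x y ^ j else 0 with hA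
  set A' : ℝ := ∑ x ∈ R, ∑ y ∈ S, if F x y = true then Q x y ^ j else 0 with hA'
  set Z : ℝ := ∑ x ∈ R, ∑ y ∈ S, if F x y = true then 0 else P x y ^ j with hZ
  set C : ℝ := ∑ x ∈ R, ∑ y ∈ S, if F x y = true then 0 else Q x y ^ j with hC
  have hA'A : A' ≤ A := by
    refine Finset.sum_le_sum fun x _ => Finset.sum_le_sum fun y _ => ?_
    cases hF : F x y
    · simp
    · simp only [if_true]
      exact pow_le_pow_left₀ (hQ0 x y) (h1 x y hF).2 j
  have k1' : ε * C + (ε - 1) * A' ≤ ε ^ 2 * n / 2 := by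
    refine le_trans (le_of_eq ?_) (k1.trans hδ)
    rw [hC, hA', Finset.mul_sum, Finset.mul_sum, ← Finset.sum_add_distrib]
    refine Finset.sum_congr rfl fun x _ => ?_
    rw [Finset.mul_sum, Finset.mul_sum, ← Finset.sum_add_distrib]
    refine Finset.sum_congr rfl fun y _ => ?_
    cases hF : F x y
    · simp only [Bool.false_eq_true, if_false, if_true, hQdef]
      ring
    · simp only [Bool.true_eq_false, if_false, if_true, hQdef]
      ring
  have k2' : ε * A + (ε - 1) * Z ≤ ε ^ 2 * n / 2 := by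
    refine le_trans (le_of_eq ?_) (k2.trans hδ)
    rw [hZ, hA, Finset.mul_sum, Finset.mul_sum, ← Finset.sum_add_distrib]
    refine Finset.sum_congr rfl fun x _ => ?_
    rw [Finset.mul_sum, Finset.mul_sum, ← Finset.sum_add_distrib]
    refine Finset.sum_congr rfl fun y _ => ?_
    cases hF : F x y
    · simp only [Bool.false_eq_true, if_false, hPdef]
      ring
    · simp only [if_true, hPdef]
      ring
  have hnO : ε * n < A := by
    have e1 := hcon false R S (Finset.Subset.refl _) (Finset.Subset.refl _) (by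
      nlinarith)
    refine lt_of_lt_of_le e1 ?_
    refine Finset.sum_le_sum fun x _ => Finset.sum_le_sum fun y _ => ?_
    cases hF : F x y
    · simp
    · simp only [Bool.true_eq_false, if_false, if_true]
      exact one_le_pow₀ (h1 x y hF).1
  have hCZ : (1 + δ) ^ j * Z ≤ C := by
    rw [hC, hZ, Finset.mul_sum]
    refine Finset.sum_le_sum fun x _ => ?_
    rw [Finset.mul_sum]
    refine Finset.sum_le_sum fun y _ => ?_
    cases hF : F x y
    · simp only [Bool.false_eq_true, if_false]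
      rw [← mul_pow]
      exact pow_le_pow_left₀ (mul_nonneg (by positivity) (hP0 x y)) (h0 x y hF) j
    · simp
  have hZ0 : 0 ≤ Z := by
    refine Finset.sum_nonneg fun x _ => Finset.sum_nonneg fun y _ => ?_
    split_ifs
    · exact le_rfl
    · exact pow_nonneg (hP0 x y) _
  have hA0 : 0 < A := lt_of_le_of_lt (by positivity) hnO
  -- `Z ≥ ε A / 2`
  have s1 : ε ^ 2 * n / 2 ≤ ε * A / 2 := by
    have : ε * (ε * n) ≤ ε * A := mul_le_mul_of_nonneg_left hnO.le hε0.le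
    nlinarith
  have s2 : ε * A / 2 ≤ Z := by
    have : (1 - ε) * Z ≤ Z := by nlinarith
    linarith
  have s3 : ε * C ≤ 2 * A := by
    have e1 : ε * A ≤ A := by nlinarith
    have e2 : (1 - ε) * A' ≤ (1 - ε) * A := mul_le_mul_of_nonneg_left hA'A (by linarith)
    nlinarith
  have s4 : ε * ((1 + δ) ^ j * (ε * A / 2)) ≤ 2 * A := by
    refine le_trans ?_ s3
    refine mul_le_mul_of_nonneg_left (le_trans ?_ hCZ) hε0.le
    exact mul_le_mul_of_nonneg_left s2 (by positivity)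
  have s5 : (1 + δ) ^ j * ε ^ 2 * A ≤ 4 * A := by nlinarith
  have s6 := le_of_mul_le_mul_right s5 hA0
  linarith

end Pool.Agent.W463.LR
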