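import Pool.Agent.W926.LR.Final
import Pool.Agent.W463.LR.Near

set_option autoImplicit false

/-! # From near-constant rectangles to protocols -/

namespace Pool.Agent.W463.LR

open Finset Pool.Agent.W926.LR Pool.Agent.H630R2.LR

variable {X Y : Type} [Fintype Y]

omit [Fintype Y] in
theorem bad_eq (F : X → Y → Bool) (β : Bool) (R : Finset X) (S : Finset Y) :
    bad F β R S = ∑ x ∈ R, ((S.filter fun y => F x y ≠ β).card : ℝ) := by
  unfold bad
  refine Finset.sum_congr rfl fun x _ => ?_
  rw [Finset.card_filter]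
  push_cast
  refine Finset.sum_congr rfl fun y _ => ?_
  by_cases h : F x y = β <;> simp [h]

/-- From near-constant to constant rectangles, by the rank. -/
theorem const_rect {F : X → Y → Bool} {D : ℕ} (hD1 : 1 ≤ D) (R' : Finset X) (S' : Finset Y)
    (hV : dV ℝ F R' S' ≤ D) (β : Bool)
    (hbad : bad F β R' S' ≤ 1 / (16 * D) * (R'.card * S'.card))
    (hR' : R'.Nonempty) (hS' : S'.Nonempty) :
    ∃ (b : Bool) (R'' : Finset X) (S'' : Finset Y), R'' ⊆ R' ∧ S'' ⊆ S' ∧
      R'.card ≤ 2 * R''.card ∧ S'.card ≤ 4 * S''.card ∧ ∀ x ∈ R'', ∀ y ∈ S'', F x y = b := by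
  classical
  set g : X → ℕ := fun x => (S'.filter fun y => F x y ≠ β).card with hg
  set R'' := R'.filter fun x => 8 * D * g x ≤ S'.card with hR''
  have hsub : R'' ⊆ R' := Finset.filter_subset _ _
  have hS0 : (0 : ℝ) < S'.card := by exact_mod_cast hS'.card_pos
  have hD0 : (0 : ℝ) < D := by exact_mod_cast hD1
  have h1 : ((R' \ R'').card : ℝ) * S'.card ≤ R'.card * S'.card / 2 := by
    have e1 : ((R' \ R'').card : ℝ) * S'.card ≤ ∑ x ∈ R' \ R'', 8 * D * (g x : ℝ) := by
      rw [← nsmul_eq_mul, ← Finset.sum_const]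
      refine Finset.sum_le_sum fun x hx => ?_
      obtain ⟨hx1, hx2⟩ := Finset.mem_sdiff.1 hx
      have : ¬ 8 * D * g x ≤ S'.card := fun h => hx2 (Finset.mem_filter.2 ⟨hx1, h⟩)
      have h3 : S'.card ≤ 8 * D * g x := by omega
      exact_mod_cast h3
    have e2 : ∑ x ∈ R' \ R'', 8 * D * (g x : ℝ) ≤ ∑ x ∈ R', 8 * D * (g x : ℝ) :=
      Finset.sum_le_sum_of_subset_of_nonneg Finset.sdiff_subset fun x _ _ => by positivity
    have e3 : ∑ x ∈ R', 8 * D * (g x : ℝ) = 8 * D * bad F β R' S' := by
      rw [bad_eq, Finset.mul_sum]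
    have e4 : 8 * D * bad F β R' S' ≤ 8 * D * (1 / (16 * D) * (R'.card * S'.card)) :=
      mul_le_mul_of_nonneg_left hbad (by positivity)
    have e5 : 8 * (D : ℝ) * (1 / (16 * D) * (R'.card * S'.card)) = R'.card * S'.card / 2 := by
      field_simp
      ring
    linarith
  have h2 : R'.card ≤ 2 * R''.card := by
    have e1 : ((R' \ R'').card : ℝ) ≤ R'.card / 2 := by
      have : ((R' \ R'').card : ℝ) * S'.card ≤ (R'.card / 2) * S'.card := by linarith
      exact le_of_mul_le_mul_right this hS0
    have e2 : ((R' \ R'').card : ℝ) = R'.card - R''.card := by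
      rw [Finset.card_sdiff_of_subset hsub, Nat.cast_sub (Finset.card_le_card hsub)]
    rw [e2] at e1
    have e3 : (R'.card : ℝ) ≤ 2 * R''.card := by linarith
    exact_mod_cast e3
  have hne : R''.Nonempty := by
    rw [← Finset.card_pos]
    have := hR'.card_pos
    omega
  obtain ⟨c, hc⟩ := hne
  obtain ⟨b, S'', hS'', hcard, hb⟩ := cluster_rect (K := ℝ) (F := F) (R := R'') (S := S') (D := D)
    ((dV_mono_left S' hsub).trans hV) hD1 c (fun x hx => by
      have e1 : (S'.filter fun y => F x y ≠ F c y).card ≤ g x + g c := by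
        refine le_trans (Finset.card_le_card ?_) (Finset.card_union_le _ _)
        intro y hy
        obtain ⟨hy1, hy2⟩ := Finset.mem_filter.1 hy
        rw [Finset.mem_union, Finset.mem_filter, Finset.mem_filter]
        by_cases h : F x y = β
        · right; exact ⟨hy1, fun h' => hy2 (by rw [h, h'])⟩
        · left; exact ⟨hy1, h⟩
      have e2 := (Finset.mem_filter.1 hx).2
      have e3 := (Finset.mem_filter.1 hc).2
      calc 4 * D * (S'.filter fun y => F x y ≠ F c y).card ≤ 4 * D * (g x + g c) :=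
            Nat.mul_le_mul_left _ e1
        _ ≤ S'.card := by nlinarith)
  exact ⟨b, R'', S'', hsub, hS'', h2, hcard, hb⟩

/-- Every rectangle of dimension at most `D` contains a constant rectangle with at least the
fraction `2 ^ (-U)` of the rows and of the columns. -/
def Rect (F : X → Y → Bool) (D U : ℕ) : Prop :=
  ∀ (R : Finset X) (S : Finset Y), R.Nonempty → S.Nonempty → dV ℝ F R S ≤ D →
    ∃ (b : Bool) (R' : Finset X) (S' : Finset Y), R' ⊆ R ∧ S' ⊆ S ∧
      R.card ≤ 2 ^ U * R'.card ∧ S.card ≤ 2 ^ U * S'.card ∧ ∀ x ∈ R', ∀ y ∈ S', F x y = b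

/-- The recursion. -/
theorem levels {F : X → Y → Bool} {D U : ℕ} (hrect : Rect F D U) (β : ℝ)
    (hβ : β = 1 - 1 / 2 ^ U) (N : ℕ) :
    ∀ (k : ℕ) (R : Finset X) (S : Finset Y), dV ℝ F R S ≤ D → dV ℝ F R S ≤ 2 ^ k →
      (R.card : ℝ) * S.card * β ^ N < 1 → Good F R S (2 * (N + 1) ^ k) := by
  classical
  have hinv : (1 : ℝ) / 2 ^ U ≤ 1 := by
    rw [div_le_one (by positivity)]
    exact one_le_pow₀ (by norm_num)
  have hinv0 : (0 : ℝ) < 1 / 2 ^ U := by positivity
  have hβ0 : 0 ≤ β := by rw [hβ]; linarith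
  have hβ1 : β ≤ 1 := by rw [hβ]; linarith
  intro k
  induction k with
  | zero =>
    intro R S _ h _
    simpa using good_one (by simpa using h)
  | succ k ih =>
    have inner : ∀ (n : ℕ), n ≤ N → ∀ (R : Finset X) (S : Finset Y), dV ℝ F R S ≤ D →
        dV ℝ F R S ≤ 2 ^ (k + 1) → (R.card : ℝ) * S.card * β ^ n < 1 →
        Good F R S (1 + n * (2 * (N + 1) ^ k)) := by
      intro n
      induction n with
      | zero =>
        intro _ R S _ _ h
        have h0 : R.card * S.card < 1 := by
          have : ((R.card * S.card : ℕ) : ℝ) < 1 := by push_cast; simpa using h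
          exact_mod_cast this
        have h1 : R.card = 0 ∨ S.card = 0 := by
          rw [← Nat.mul_eq_zero]; omega
        refine ⟨T.leaf true, fun x hx y hy => ?_, by simp [T.lv]⟩
        rcases h1 with h1 | h1
        · rw [Finset.card_eq_zero] at h1; rw [h1] at hx; simp at hx
        · rw [Finset.card_eq_zero] at h1; rw [h1] at hy; simp at hy
      | succ n ihn =>
        intro hn R S hRD hRk hfuel
        rcases R.eq_empty_or_nonempty with hR | hR
        · refine ⟨T.leaf true, fun x hx y hy => ?_, by simp [T.lv]⟩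
          rw [hR] at hx; simp at hx
        rcases S.eq_empty_or_nonempty with hS | hS
        · refine ⟨T.leaf true, fun x hx y hy => ?_, by simp [T.lv]⟩
          rw [hS] at hy; simp at hy
        obtain ⟨b, R', S', hR', hS', hc1, hc2, hb⟩ := hrect R S hR hS hRD
        have hsplit := dV_split (K := ℝ) hR' hS' b hb
        have hβn : β ^ N ≤ β ^ (n + 1) := pow_le_pow_of_le_one hβ0 hβ1 hn
        have hβnn : 0 ≤ β ^ n := pow_nonneg hβ0 _
        have hβNN : 0 ≤ β ^ N := pow_nonneg hβ0 _
        have hR0 : (0 : ℝ) ≤ R.card := by positivity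
        have hS0 : (0 : ℝ) ≤ S.card := by positivity
        rcases le_or_gt (dV ℝ F R' S) (2 ^ k) with hcase | hcase
        · -- Alice speaks
          have g1 : Good F R' S (2 * (N + 1) ^ k) := by
            refine ih R' S ((dV_mono_left S hR').trans hRD) hcase (lt_of_le_of_lt ?_ hfuel)
            have : (R'.card : ℝ) ≤ R.card := by exact_mod_cast Finset.card_le_card hR'
            gcongr
          have g2 : Good F (R \ R') S (1 + n * (2 * (N + 1) ^ k)) := by
            refine ihn (by omega) (R \ R') S ((dV_mono_left S Finset.sdiff_subset).trans hRD)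
              ((dV_mono_left S Finset.sdiff_subset).trans hRk) (lt_of_le_of_lt ?_ hfuel)
            have e1 : ((R \ R').card : ℝ) = R.card - R'.card := by
              rw [Finset.card_sdiff_of_subset hR', Nat.cast_sub (Finset.card_le_card hR')]
            have e2 : (R.card : ℝ) ≤ 2 ^ U * R'.card := by exact_mod_cast hc1
            have e3 : (R.card : ℝ) * (1 / 2 ^ U) ≤ R'.card := by
              rw [mul_one_div, div_le_iff₀ (by positivity)]
              linarith
            have e4 : ((R \ R').card : ℝ) ≤ R.card * β := by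
              rw [e1, hβ]; linarith
            calc ((R \ R').card : ℝ) * S.card * β ^ n ≤ (R.card * β) * S.card * β ^ n := by gcongr
              _ = R.card * S.card * β ^ (n + 1) := by ring
          refine (good_al g1 g2).mono (le_of_eq ?_)
          ring
        · -- Bob speaks
          have hcase' : dV ℝ F R S' ≤ 2 ^ k := by
            rw [pow_succ] at hRk
            omega
          have g1 : Good F R S' (2 * (N + 1) ^ k) := by
            refine ih R S' ((dV_mono_right R hS').trans hRD) hcase' (lt_of_le_of_lt ?_ hfuel)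
            have : (S'.card : ℝ) ≤ S.card := by exact_mod_cast Finset.card_le_card hS'
            gcongr
          have g2 : Good F R (S \ S') (1 + n * (2 * (N + 1) ^ k)) := by
            refine ihn (by omega) R (S \ S') ((dV_mono_right R Finset.sdiff_subset).trans hRD)
              ((dV_mono_right R Finset.sdiff_subset).trans hRk) (lt_of_le_of_lt ?_ hfuel)
            have e1 : ((S \ S').card : ℝ) = S.card - S'.card := by
              rw [Finset.card_sdiff_of_subset hS', Nat.cast_sub (Finset.card_le_card hS')]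
            have e2 : (S.card : ℝ) ≤ 2 ^ U * S'.card := by exact_mod_cast hc2
            have e3 : (S.card : ℝ) * (1 / 2 ^ U) ≤ S'.card := by
              rw [mul_one_div, div_le_iff₀ (by positivity)]
              linarith
            have e4 : ((S \ S').card : ℝ) ≤ S.card * β := by
              rw [e1, hβ]; linarith
            calc (R.card : ℝ) * (S \ S').card * β ^ n ≤ R.card * (S.card * β) * β ^ n := by gcongr
              _ = R.card * S.card * β ^ (n + 1) := by ring
          refine (good_bo g1 g2).mono (le_of_eq ?_)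
          ring
    intro R S hRD hRk hfuel
    refine (inner N le_rfl R S hRD hRk hfuel).mono ?_
    have h1 : 1 ≤ (N + 1) ^ k := Nat.one_le_pow _ _ (by omega)
    rw [pow_succ]
    nlinarith

/-- The protocol. -/
theorem proto_rect [Fintype X] (F : X → Y → Bool) (U : ℕ)
    (hrect : Rect F ((cm ℝ F).rank + 1) U) :
    Proto F (4 * (1 + (U + 1 + Nat.clog 2 ((cm ℝ F).rank + 1)) *
      Nat.clog 2 ((cm ℝ F).rank + 1)) + 15) := by
  classical
  set r := (cm ℝ F).rank with hr
  set k := Nat.clog 2 (r + 1) with hk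
  have hrk : r + 1 ≤ 2 ^ k := Nat.le_pow_clog (by norm_num) _
  obtain ⟨ρ, R, hρR, hρ, hRc⟩ := exists_rep ℝ F
  obtain ⟨σ, S, hσS, hσ, hSc⟩ := exists_rep ℝ (fun y x => F x y)
  rw [rank_swap] at hSc
  rw [← hr] at hRc hSc
  have hgood : Good F R S (2 * (2 ^ U * (2 * r + 1) + 1) ^ k) := by
    refine levels hrect (1 - 1 / 2 ^ U) rfl (2 ^ U * (2 * r + 1)) k R S (dV_le_rank F R S)
      ((dV_le_rank F R S).trans hrk) ?_
    refine lt_of_le_of_lt ?_ (beta_lt U r)
    have h1 : (R.card : ℝ) ≤ 2 ^ r := by exact_mod_cast hRc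
    have h2 : (S.card : ℝ) ≤ 2 ^ r := by exact_mod_cast hSc
    have h3 : (0 : ℝ) ≤ (1 - 1 / 2 ^ U) ^ (2 ^ U * (2 * r + 1)) := by
      apply pow_nonneg
      have : (1 : ℝ) / 2 ^ U ≤ 1 := by
        rw [div_le_one (by positivity)]
        exact one_le_pow₀ (by norm_num)
      linarith
    gcongr
  obtain ⟨t, ht, htl⟩ := hgood
  have hle : t.lv ≤ 2 ^ (1 + (U + 1 + k) * k) := by
    refine htl.trans ?_
    rw [pow_add, pow_one, pow_mul 2 (U + 1 + k) k]
    apply Nat.mul_le_mul_left
    apply Nat.pow_le_pow_left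
    have h1 : 1 ≤ 2 ^ U := Nat.one_le_two_pow
    calc 2 ^ U * (2 * r + 1) + 1 ≤ 2 ^ U * (2 * r + 1) + 2 ^ U := by omega
      _ = 2 ^ U * 2 * (r + 1) := by ring
      _ ≤ 2 ^ U * 2 * 2 ^ k := Nat.mul_le_mul_left _ hrk
      _ = 2 ^ (U + 1 + k) := by rw [pow_add, pow_add, pow_one]
  have hp := T.balance _ t hle
  have hp2 := hp.comap ρ σ
  have e : (fun x y => t.ev (ρ x) (σ y)) = F := by
    funext x y
    rw [ht _ (hρR x) _ (hσS y), hρ x]
    exact congrFun (hσ y) x
  rw [e] at hp2
  exact hp2

end Pool.Agent.W463.LR
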